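import Mathlib
import Pool.Agent.H773.IE.SR

/-!
# Rauzy induction: paths with positive matrices (statement `S_gam` of project IE, helper773)
-/

set_option autoImplicit false

open MeasureTheory Set Filter Topology

namespace Pool.Agent.H155.IE

open Pool.Agent.H773.IE

variable {m : ℕ}

open Classical in
/-- one step: if the winner is in the set then the loser joins -/
noncomputable def grow (s : Sta m) (b : Bool) (C : Finset (Fin (m + 1))) : Finset (Fin (m + 1)) :=
  if win s b ∈ C then insert (los s b) C else C

/-- the set after a list of outcomes -/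
noncomputable def runC : List Bool → Sta m → Finset (Fin (m + 1)) → Finset (Fin (m + 1))
  | [], _, C => C
  | b :: p, s, C => runC p (nxt s b) (grow s b C)

theorem runC_append (p p' : List Bool) (s : Sta m) (C : Finset (Fin (m + 1))) :
    runC (p ++ p') s C = runC p' (run p s) (runC p s C) := by
  induction p generalizing s C with
  | nil => rfl
  | cons b p ih => exact ih _ _

theorem sub_grow (s : Sta m) (b : Bool) (C : Finset (Fin (m + 1))) : C ⊆ grow s b C := by
  classical
  unfold grow
  split_ifs
  · exact Finset.subset_insert _ _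
  · exact Finset.Subset.refl _

theorem sub_runC (p : List Bool) (s : Sta m) (C : Finset (Fin (m + 1))) : C ⊆ runC p s C := by
  induction p generalizing s C with
  | nil => exact Finset.Subset.refl _
  | cons b p ih => exact (sub_grow s b C).trans (ih _ _)

/-- the winner stays at the end of its row -/
theorem win_nxt (s : Sta m) (b : Bool) : win s b = et (nxt s b) ∨ win s b = eb (nxt s b) := by
  cases b
  · right; rfl
  · left; rfl

theorem ends (s : Sta m) (b : Bool) (x : Fin (m + 1)) (hx : x = et s ∨ x = eb s) :
    x = win s b ∨ x = los s b := by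
  cases b
  · rcases hx with h | h
    · right; exact h
    · left; exact h
  · rcases hx with h | h
    · left; exact h
    · right; exact h

theorem escape (p : List Bool) : ∀ (s : Sta m) (C : Finset (Fin (m + 1))) (b : Bool)
    (x : Fin (m + 1)), x ∉ C → (x = et s ∨ x = eb s) → win (run p s) b ∈ C →
    runC (p ++ [b]) s C ≠ C := by
  classical
  induction p with
  | nil =>
    intro s C b x hx he hw
    have hw' : win s b ∈ C := hw
    have hl : x = los s b := by
      rcases ends s b x he with h | h
      · rw [h] at hx; exact absurd hw' hx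
      · exact h
    have h1 : runC ([] ++ [b]) s C = insert (los s b) C := by
      show grow s b C = _
      unfold grow
      rw [if_pos hw']
    rw [h1, ← hl]
    intro h2
    exact hx (h2 ▸ Finset.mem_insert_self x C)
  | cons d p ih =>
    intro s C b x hx he hw
    by_cases hd : win s d ∈ C
    · have hl : x = los s d := by
        rcases ends s d x he with h | h
        · rw [h] at hx; exact absurd hd hx
        · exact h
      have h1 : x ∈ runC ((d :: p) ++ [b]) s C := by
        apply sub_runC (p ++ [b]) (nxt s d) (grow s d C)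
        unfold grow
        rw [if_pos hd, ← hl]
        exact Finset.mem_insert_self x C
      intro h2
      rw [h2] at h1
      exact hx h1
    · have h1 : grow s d C = C := by
        unfold grow
        rw [if_neg hd]
      have h2 := ih (nxt s d) C b (win s d) hd (win_nxt s d) hw
      show runC (p ++ [b]) (nxt s d) (grow s d C) ≠ C
      rw [h1]
      exact h2

theorem irr_run (hirr : S_irr) (hm : 1 ≤ m) (p : List Bool) : ∀ s : Sta m, IrrS s →
    IrrS (run p s) := by
  induction p with
  | nil => intro s h; exact h
  | cons b p ih => intro s h; exact ih _ (hirr m hm s h b)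

theorem pos_run (p : List Bool) : ∀ (s : Sta m) (lam : Fin (m + 1) → ℝ), (∀ i, 0 < lam i) →
    Cyl p s lam → ∀ i, 0 < runL p s lam i := by
  induction p with
  | nil => intro s lam h _; exact h
  | cons b p ih =>
    intro s lam h hc
    refine ih _ _ ?_ hc.2
    intro i
    unfold nxtL
    rw [Function.update_apply]
    split_ifs
    · have := hc.1; linarith
    · exact h i

theorem tie_run (p : List Bool) (s : Sta m) (lam : Fin (m + 1) → ℝ) (h : NoTie s lam)
    (hc : Cyl p s lam) : NoTie (run p s) (runL p s lam) := by
  intro p' hp'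
  have h1 := h (p ++ p') ((Cyl_append p p' s lam).2 ⟨hc, hp'⟩)
  rw [runL_append, run_append] at h1
  exact h1

theorem step_up (hirr : S_irr) (hK : S_K) (hm : 1 ≤ m) (s : Sta m) (lam : Fin (m + 1) → ℝ)
    (hs : IrrS s) (hpos : ∀ i, 0 < lam i) (hnt : NoTie s lam) (C : Finset (Fin (m + 1)))
    (hC : C.Nonempty) (hC' : C ≠ Finset.univ) : ∃ p, Cyl p s lam ∧ runC p s C ≠ C := by
  obtain ⟨i, hi⟩ : ∃ i, i ∉ C := by
    by_contra hcon
    push Not at hcon
    exact hC' (Finset.eq_univ_iff_forall.2 hcon)
  obtain ⟨p1, b1, hc1, hw1⟩ := hK m hm s lam hs hpos hnt i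
  by_cases h1 : runC (p1 ++ [b1]) s C = C
  · obtain ⟨c, hc⟩ := hC
    have hs1 := irr_run hirr hm (p1 ++ [b1]) s hs
    obtain ⟨p2, b2, hc2, hw2⟩ := hK m hm (run (p1 ++ [b1]) s) (runL (p1 ++ [b1]) s lam) hs1
      (pos_run _ s lam hpos hc1) (tie_run _ s lam hnt hc1) c
    refine ⟨(p1 ++ [b1]) ++ (p2 ++ [b2]), (Cyl_append _ _ s lam).2 ⟨hc1, hc2⟩, ?_⟩
    rw [runC_append, h1]
    refine escape p2 _ C b2 i hi ?_ (by rw [hw2]; exact hc)
    rw [run_append, ← hw1]
    exact win_nxt (run p1 s) b1
  · exact ⟨_, hc1, h1⟩

theorem all_up (hirr : S_irr) (hK : S_K) (hm : 1 ≤ m) (s : Sta m) (lam : Fin (m + 1) → ℝ)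
    (hs : IrrS s) (hpos : ∀ i, 0 < lam i) (hnt : NoTie s lam) :
    ∃ p, Cyl p s lam ∧ ∀ j, runC p s {j} = Finset.univ := by
  have key : ∀ n : ℕ, (∃ p, Cyl p s lam ∧ ∀ j, runC p s {j} = Finset.univ) ∨
      ∃ p, Cyl p s lam ∧ n ≤ ∑ j, (runC p s {j}).card := by
    intro n
    induction n with
    | zero => exact Or.inr ⟨[], trivial, Nat.zero_le _⟩
    | succ n ih =>
      rcases ih with h | ⟨p, hp, hn⟩
      · exact Or.inl h
      · by_cases hall : ∀ j, runC p s {j} = Finset.univ
        · exact Or.inl ⟨p, hp, hall⟩
        · push Not at hall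
          obtain ⟨j, hj⟩ := hall
          have hne : (runC p s {j}).Nonempty :=
            ⟨j, sub_runC p s {j} (Finset.mem_singleton_self j)⟩
          obtain ⟨p', hp', hgr⟩ := step_up hirr hK hm (run p s) (runL p s lam)
            (irr_run hirr hm p s hs) (pos_run p s lam hpos hp) (tie_run p s lam hnt hp)
            (runC p s {j}) hne hj
          refine Or.inr ⟨p ++ p', (Cyl_append _ _ s lam).2 ⟨hp, hp'⟩, ?_⟩
          have hlt : ∑ j, (runC p s {j}).card < ∑ j, (runC (p ++ p') s {j}).card := by
            apply Finset.sum_lt_sum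
            · intro j' _
              rw [runC_append]
              exact Finset.card_le_card (sub_runC _ _ _)
            · refine ⟨j, Finset.mem_univ _, ?_⟩
              rw [runC_append]
              exact Finset.card_lt_card (Finset.ssubset_iff_subset_ne.2
                ⟨sub_runC _ _ _, hgr.symm⟩)
          omega
  rcases key ((m + 1) * (m + 1) + 1) with h | ⟨p, _, hn⟩
  · exact h
  · exfalso
    have h1 : ∑ j : Fin (m + 1), (runC p s {j}).card ≤ ∑ _j : Fin (m + 1), (m + 1) := by
      apply Finset.sum_le_sum
      intro j _
      have := Finset.card_le_univ (runC p s {j})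
      rwa [Fintype.card_fin] at this
    rw [Finset.sum_const, Finset.card_univ, Fintype.card_fin, smul_eq_mul] at h1
    omega

open Classical in
theorem inv_run (q0 : Fin (m + 1) → ℝ) (h0 : ∀ i, 0 ≤ q0 i) (p : List Bool) :
    ∀ (s : Sta m) (q : Fin (m + 1) → ℝ) (C : Fin (m + 1) → Finset (Fin (m + 1))),
    (∀ i, ∑ j ∈ Finset.univ.filter (fun j => i ∈ C j), q0 j ≤ q i) →
    ∀ i, ∑ j ∈ Finset.univ.filter (fun j => i ∈ runC p s (C j)), q0 j ≤ runQ p s q i := by
  induction p with
  | nil => intro s q C h; exact h
  | cons b p ih =>
    intro s q C h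
    refine ih (nxt s b) (nxtQ s b q) (fun j => grow s b (C j)) ?_
    intro i
    unfold nxtQ
    rw [Function.update_apply]
    split_ifs with hi
    · subst hi
      calc ∑ j ∈ Finset.univ.filter (fun j => los s b ∈ grow s b (C j)), q0 j
          ≤ ∑ j ∈ (Finset.univ.filter (fun j => los s b ∈ C j)) ∪
              (Finset.univ.filter (fun j => win s b ∈ C j)), q0 j := by
            apply Finset.sum_le_sum_of_subset_of_nonneg
            · intro j hj
              rw [Finset.mem_filter] at hj
              rw [Finset.mem_union, Finset.mem_filter, Finset.mem_filter]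
              by_cases hw : win s b ∈ C j
              · exact Or.inr ⟨Finset.mem_univ _, hw⟩
              · left
                refine ⟨Finset.mem_univ _, ?_⟩
                have := hj.2
                unfold grow at this
                rwa [if_neg hw] at this
            · intro j _ _
              exact h0 j
        _ ≤ ∑ j ∈ Finset.univ.filter (fun j => los s b ∈ C j), q0 j +
              ∑ j ∈ Finset.univ.filter (fun j => win s b ∈ C j), q0 j := by
            rw [← Finset.sum_union_inter]
            have : 0 ≤ ∑ j ∈ (Finset.univ.filter (fun j => los s b ∈ C j)) ∩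
              (Finset.univ.filter (fun j => win s b ∈ C j)), q0 j :=
              Finset.sum_nonneg (fun j _ => h0 j)
            linarith
        _ ≤ q (los s b) + q (win s b) := add_le_add (h _) (h _)
    · have h1 : (Finset.univ.filter (fun j => i ∈ grow s b (C j))) =
          Finset.univ.filter (fun j => i ∈ C j) := by
        apply Finset.filter_congr
        intro j _
        unfold grow
        split_ifs
        · rw [Finset.mem_insert]
          exact ⟨fun h => h.resolve_left hi, Or.inr⟩
        · exact Iff.rfl
      rw [h1]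
      exact h i

theorem t_gam (hex : S_ex) (hirr : S_irr) (htie : S_tie) (hK : S_K) : S_gam := by
  classical
  intro m hm s hs
  obtain ⟨-, hprob, hpos, -, -⟩ := hex (m + 1) (fun _ => 1) (fun _ => one_pos)
  have hnt := htie m hm s hs (fun _ => 1) (fun _ => one_pos)
  obtain ⟨lam, h1, h2⟩ := (hpos.and hnt).exists
  obtain ⟨p, -, hp⟩ := all_up hirr hK hm s lam hs h1 h2
  refine ⟨p, fun q hq i => ?_⟩
  have h3 := inv_run q hq p s q (fun j => {j}) (by
    intro i
    have : Finset.univ.filter (fun j : Fin (m + 1) => i ∈ ({j} : Finset (Fin (m + 1)))) = {i} := by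
      ext j
      simp [eq_comm]
    rw [this, Finset.sum_singleton]) i
  have h4 : Finset.univ.filter (fun j : Fin (m + 1) => i ∈ runC p s {j}) = Finset.univ := by
    apply Finset.filter_true_of_mem
    intro j _
    rw [hp j]
    exact Finset.mem_univ _
  rw [h4] at h3
  exact h3

end Pool.Agent.H155.IE
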